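import Pool.Agent.K4H21.PL.Defs
import Pool.Agent.K4H35.PL.Fin
import Pool.Agent.K4H21.PL.OfIso

/-!
# A `π₁`-like functor which agrees with `π₁^top` on the varieties over `ℚbar` and is not equivalent to
a conjugate of `π₁^top`

`Var ℂ` is the category of smooth quasi-projective varieties over `ℂ` (`IsVar`: smooth over `Spec ℂ`,
with an immersion in a projective space over `ℂ`). The complex points `Pts X` have the analytic topology:
the coarsest one for which the sets of points of open subschemes are open and the regular functions on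
them are continuous. `pi1top` is the fundamental groupoid of `Pts X` (Mathlib). `Pi1Like` are the
conditions (1), (2), (3) of the problem: the functor to the product of the groupoids of the factors is
bijective on objects and on morphisms; the groupoid of a connected variety is connected; morphisms have
unique liftings along finite étale morphisms (`Prefunctor.star` is bijective). Condition (0) is
expressed by a natural transformation `τ : π ⟶ π₁^top` that is bijective on objects. `OverQbar V`: `V` is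
the base change of a smooth quasi-projective variety over the algebraic closure of `ℚ` in `ℂ`.
`conj σ` is `X ↦ X^σ`, `σ` an automorphism of `ℂ` over `ℚbar`.

**Theorem.** There are a `π₁`-like functor `π` and a natural transformation `τ : π ⟶ π₁^top`, bijective on
objects, such that `π V = π₁^top V` and `τ` is the identity for all varieties `V` defined over `ℚbar` (so
`π f = π₁^top f` for all morphisms of these), but for no `σ` the functor `π ∘ σ` is isomorphic to `π₁^top`,
not even by isomorphisms that are not the identity on objects. So the answer to Q1 is no.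

**Construction.** For a group `G` let a virtual homomorphism be a function `F : G → ℚ` that is additive on
a subgroup of finite index and satisfies `F (g ^ n) = n F g` (`IsVHom`); these are the elements of the
direct limit of the groups `Hom (H, ℚ)` for the subgroups `H` of finite index, and the restriction to a
subgroup of finite index is bijective. For `x ∈ X(ℂ)` let `M (X, x)` be the space of the virtual
homomorphisms of `π₁^top (X, x)` that kill all loops `δ g(m) δ⁻¹` coming from a loop `m` of a variety over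
`ℚbar`, `g : V ⟶ X` any morphism over `ℂ` (`loops`, `M`). Then
`π (X) (x, y) = π₁^top (X) (x, y) × Hom (M (X, x), ℚ)` (`Ext`, `R`).
* `M (X, x) = 0` if `X` is over `ℚbar`, since the identity of `X` is one of the `g`.
* Finite étale `X' ⟶ X`: `M (X, x) ⟶ M (X', x')` is bijective, because a power of a loop of `V` lifts to
  the finite étale covering `V ×_X X'` of `V`, which is a variety over `ℚbar`. This is (3).
* `M (X × Y, (x, y)) = M (X, x) ⊕ M (Y, y)`, since constant morphisms `V ⟶ Y` exist. This is (1).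
* For an elliptic curve `E` with transcendental `j`-invariant all morphisms from varieties over `ℚbar`
  are constant on connected components, so the vertex group of `π (E)` is an extension of `ℤ²` by
  `ℚ² ≠ 0`; it has divisible elements, but the vertex groups of `π₁^top (E^σ)` are `ℤ²`.

**Known facts** that are hypotheses of the theorem (`Facts`, `IsTransEll`): `π₁^top` is `π₁`-like;
finite étale coverings of `V ×_ℚbar ℂ` are varieties over
`ℚbar` (SGA 1, the characteristic is zero); there is an elliptic curve `E` over `ℂ` with transcendental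
`j`-invariant: the fundamental groups of `E` and of its conjugates are `ℤ²`, and morphisms `V ⟶ E` of
varieties `V` over `ℚbar` are trivial on the fundamental groups.
-/

set_option autoImplicit false

open CategoryTheory AlgebraicGeometry Limits

noncomputable section

namespace Pool.Agent.Results.MP_8178ab_ag.QbarLoops

open Pool.Agent.K4H21.PL

/-- Known facts. -/
structure Facts : Prop where
  /-- `π₁^top` is `π₁`-like. -/
  like : Pi1Like Conn FinEt pi1top
  /-- Finite étale coverings of varieties over `ℚbar` are varieties over `ℚbar`. -/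
  desc : ∀ V : Var ℂ, OverQbar V → ∀ (W : Over (Sp ℂ)) (h : W ⟶ V.obj), IsFinite h.left →
    Etale h.left → ∃ V' : Var ℂ, OverQbar V' ∧ Nonempty (V'.obj ≅ W)

/-- Known facts on an elliptic curve `E` with transcendental `j`-invariant. -/
structure IsTransEll (E : Var ℂ) : Prop where
  pt : Nonempty (Pts E.obj)
  grp : ∀ x : pi1top.obj E, IsZ2 (x ⟶ x)
  grpConj : ∀ (σ : AutC) (x : pi1top.obj ((conj σ).obj E)), IsZ2 (x ⟶ x)
  rigid : ∀ V : Var ℂ, OverQbar V → ∀ (f : V ⟶ E) (v : pi1top.obj V) (m : v ⟶ v),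
    (fm pi1top f).map m = 𝟙 _

/-- The map on objects of a natural transformation. -/
def objMap {π : Var ℂ ⥤ Grpd.{0, 0}} (τ : π ⟶ pi1top) (X : Var ℂ) : π.obj X → pi1top.obj X :=
  (τ.app X : π.obj X ⥤ pi1top.obj X).obj

theorem map_const {A B : Type} [TopologicalSpace A] [TopologicalSpace B] (b : B) :
    FundamentalGroupoid.map (ContinuousMap.const A b)
      = (Functor.const (FundamentalGroupoid A)).obj ⟨b⟩ := by
  refine CategoryTheory.Functor.hext (fun _ => rfl) ?_
  intro x y p
  refine heq_of_eq ?_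
  induction p using Quotient.ind
  rfl

theorem const_exists {V Y : Var ℂ} (y : pi1top.obj Y) : ∃ c : V ⟶ Y,
    fm pi1top c = (Functor.const (pi1top.obj V)).obj y := by
  obtain ⟨a⟩ := y
  let c : V.obj ⟶ Y.obj := Over.homMk (V.obj.hom ≫ (show Over.mk (𝟙 (Sp ℂ)) ⟶ Y.obj from a).left)
    (by
      rw [Category.assoc, Over.w]
      exact Category.comp_id _)
  refine ⟨ObjectProperty.homMk c, ?_⟩
  have e : (ptsTop.map c).hom = ContinuousMap.const (Pts V.obj) a := by
    refine ContinuousMap.ext fun x => ?_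
    refine Over.OverMorphism.ext ?_
    show (show Over.mk (𝟙 (Sp ℂ)) ⟶ V.obj from x).left ≫ V.obj.hom ≫ _ = _
    rw [← Category.assoc, Over.w]
    exact Category.id_comp _
  show FundamentalGroupoid.map (ptsTop.map c).hom = _
  rw [e]
  exact map_const a

theorem pull_exists (hF : Facts) {V X X' : Var ℂ} (hV : OverQbar V) (g : V ⟶ X) (f : X' ⟶ X)
    (hf : FinEt f) (v : pi1top.obj V) (x' : pi1top.obj X')
    (e : (fm pi1top f).obj x' = (fm pi1top g).obj v) :
    ∃ (V' : Var ℂ) (_ : OverQbar V') (h : V' ⟶ V) (k : V' ⟶ X') (v' : pi1top.obj V'), FinEt h ∧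
      h ≫ g = k ≫ f ∧ (fm pi1top h).obj v' = v ∧ (fm pi1top k).obj v' = x' := by
  obtain ⟨v⟩ := v
  obtain ⟨x'⟩ := x'
  let v0 : Over.mk (𝟙 (Sp ℂ)) ⟶ V.obj := v
  let x0 : Over.mk (𝟙 (Sp ℂ)) ⟶ X'.obj := x'
  have e0 : x0 ≫ f.hom = v0 ≫ g.hom := congrArg FundamentalGroupoid.as e
  let W : Over (Sp ℂ) := Over.mk (pullback.fst g.hom.left f.hom.left ≫ V.obj.hom)
  let h : W ⟶ V.obj := Over.homMk (pullback.fst g.hom.left f.hom.left) rfl
  let k : W ⟶ X'.obj := Over.homMk (pullback.snd g.hom.left f.hom.left) (by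
    show pullback.snd _ _ ≫ X'.obj.hom = pullback.fst _ _ ≫ V.obj.hom
    rw [← Over.w f.hom, ← Over.w g.hom, ← Category.assoc, ← Category.assoc, pullback.condition])
  have hk : h ≫ g.hom = k ≫ f.hom := Over.OverMorphism.ext pullback.condition
  let w : Over.mk (𝟙 (Sp ℂ)) ⟶ W := Over.homMk (pullback.lift v0.left x0.left
    (congrArg Over.Hom.left e0).symm) (by
    show pullback.lift _ _ _ ≫ pullback.fst _ _ ≫ V.obj.hom = 𝟙 _
    rw [pullback.lift_fst_assoc]
    exact Over.w v0)
  have hw1 : w ≫ h = v0 := Over.OverMorphism.ext (pullback.lift_fst _ _ _)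
  have hw2 : w ≫ k = x0 := Over.OverMorphism.ext (pullback.lift_snd _ _ _)
  have hfin : IsFinite h.left := MorphismProperty.pullback_fst (P := @IsFinite) _ _ hf.1
  have het : Etale h.left := MorphismProperty.pullback_fst (P := @Etale) _ _ hf.2
  obtain ⟨V', hV', ⟨i⟩⟩ := hF.desc V hV W h hfin het
  refine ⟨V', hV', ObjectProperty.homMk (i.hom ≫ h), ObjectProperty.homMk (i.hom ≫ k),
    ⟨w ≫ i.inv⟩, ?_, ?_, ?_, ?_⟩
  · have : IsIso i.hom.left := inferInstance
    refine ⟨?_, ?_⟩
    · show IsFinite (i.hom.left ≫ h.left)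
      infer_instance
    · show Etale (i.hom.left ≫ h.left)
      infer_instance
  · apply ObjectProperty.hom_ext
    show (i.hom ≫ h) ≫ g.hom = (i.hom ≫ k) ≫ f.hom
    rw [Category.assoc, Category.assoc, hk]
  · show (⟨(w ≫ i.inv) ≫ i.hom ≫ h⟩ : FundamentalGroupoid (Pts V.obj)) = ⟨v⟩
    rw [Category.assoc, i.inv_hom_id_assoc, hw1]
  · show (⟨(w ≫ i.inv) ≫ i.hom ≫ k⟩ : FundamentalGroupoid (Pts X'.obj)) = ⟨x'⟩
    rw [Category.assoc, i.inv_hom_id_assoc, hw2]

theorem base (hF : Facts) : Base pi1top OverQbar FinEt where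
  pull hV g f hf v x' e := pull_exists hF hV g f hf v x' e
  fin {X Y} f hf x := by
    have h1 := finite_fibres f hf ((fm pi1top f).obj x).as
    have : Finite {y : Pts X.obj | (y ≫ f.hom : _ ⟶ _) = ((fm pi1top f).obj x).as} := h1
    refine Finite.of_injective (β := {y : Pts X.obj | (y ≫ f.hom : _ ⟶ _)
      = ((fm pi1top f).obj x).as}) (fun z => ⟨z.1.as, congrArg FundamentalGroupoid.as z.2⟩) ?_
    intro a b hab
    have := congrArg Subtype.val hab
    exact Subtype.ext (FundamentalGroupoid.ext this)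
  const _ y := const_exists y

/-- A functor with a left inverse is injective on loops at the identity. -/
theorem eq_id_of_map {C D : Type} [Groupoid.{0} C] [Groupoid.{0} D] (F : C ⥤ D) (G : D ⥤ C)
    (h : F ⋙ G = 𝟭 C) {x : C} (g : x ⟶ x) (hg : F.map g = 𝟙 _) : g = 𝟙 x := by
  have h1 := congr_loop h g
  have h2 : (F ⋙ G).map g = 𝟙 _ := by
    show G.map (F.map g) = 𝟙 _
    rw [hg]
    exact G.map_id _
  rw [h2] at h1
  have h3 : ∀ (a b : C) (e : a = b) (u : b ⟶ b), 𝟙 a = eqToHom e ≫ u ≫ eqToHom e.symm → u = 𝟙 b := by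
    intro a b e u hu
    subst e
    simpa using hu.symm
  exact h3 _ _ _ g h1

theorem no_divisible (b : Multiplicative (ℤ × ℤ)) (h : ∀ n : ℕ, n ≠ 0 → ∃ r, r ^ n = b) :
    b = 1 := by
  obtain ⟨⟨b1, b2⟩, hb⟩ : ∃ c : ℤ × ℤ, Multiplicative.ofAdd c = b := ⟨_, rfl⟩
  have key : ∀ n : ℕ, n ≠ 0 → (n : ℤ) ∣ b1 ∧ (n : ℤ) ∣ b2 := by
    intro n hn
    obtain ⟨r, hr⟩ := h n hn
    obtain ⟨⟨r1, r2⟩, hr'⟩ : ∃ c : ℤ × ℤ, Multiplicative.ofAdd c = r := ⟨_, rfl⟩
    rw [← hb, ← hr', ← ofAdd_nsmul] at hr
    have h1 : n • ((r1, r2) : ℤ × ℤ) = (b1, b2) := Multiplicative.ofAdd.injective hr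
    have h2 := congrArg Prod.fst h1
    have h3 := congrArg Prod.snd h1
    simp only [Prod.smul_mk, nsmul_eq_mul] at h2 h3
    exact ⟨⟨r1, h2.symm⟩, ⟨r2, h3.symm⟩⟩
  have e1 : b1 = 0 := by
    have := (key (b1.natAbs + 1) (by omega)).1
    exact Int.eq_zero_of_abs_lt_dvd this (by rw [Int.abs_eq_natAbs]; push_cast; omega)
  have e2 : b2 = 0 := by
    have := (key (b2.natAbs + 1) (by omega)).2
    exact Int.eq_zero_of_abs_lt_dvd this (by rw [Int.abs_eq_natAbs]; push_cast; omega)
  rw [← hb, e1, e2]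
  rfl

theorem exists_M {E : Var ℂ} (hE : IsTransEll E) (x : pi1top.obj E) :
    ∃ F : M (loops pi1top OverQbar E) x, F ≠ 0 := by
  obtain ⟨e⟩ := hE.grp x
  let F : (x ⟶ x) → ℚ := fun g => ((e g).toAdd.1 : ℚ)
  have hF : IsVHom F := by
    refine ⟨⟨⊤, inferInstance, fun a _ b _ => ?_⟩, fun g n => ?_⟩
    · show (((e (a * b)).toAdd.1 : ℤ) : ℚ) = ((e a).toAdd.1 : ℚ) + ((e b).toAdd.1 : ℚ)
      rw [map_mul, toAdd_mul, Prod.fst_add, Int.cast_add]
    · simp [F]
  refine ⟨⟨F, hF, ?_⟩, ?_⟩
  · rintro l ⟨V, hV, G, ⟨g, rfl⟩, v, m, δ, rfl⟩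
    have h1 : δ ≫ (fm pi1top g).map m ≫ Groupoid.inv δ = 𝟙 x := by
      rw [hE.rigid V hV g v m, Category.id_comp, Groupoid.comp_inv]
    rw [h1]
    exact hF.one
  · intro h
    have h1 : F (e.symm (Multiplicative.ofAdd ((1, 0) : ℤ × ℤ))) = 0 :=
      congrFun (congrArg Subtype.val h) _
    simp [F] at h1

/-- The conditions on `π` and on the natural transformation `τ : π ⟶ π₁^top`. -/
structure IsCounterexample (π : Var ℂ ⥤ Grpd.{0, 0}) (τ : π ⟶ pi1top) : Prop where
  /-- (1), (2), (3). -/
  like : Pi1Like Conn FinEt π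
  /-- (0): `τ` is bijective on objects. -/
  obj : ∀ X : Var ℂ, Function.Bijective (objMap τ X)
  /-- `π V = π₁^top V`, and `τ` is the identity, for all `V` over `ℚbar`. -/
  eq : ∀ V : Var ℂ, OverQbar V → ∃ h : π.obj V = pi1top.obj V, τ.app V = eqToHom h
  /-- No `π ∘ σ` is isomorphic to `π₁^top`. -/
  notEquiv : ∀ σ : AutC, IsEmpty (conj σ ⋙ π ≅ pi1top)

/-- **The answer to Q1 is no.** -/
theorem result (hF : Facts) (E : Var ℂ) (hE : IsTransEll E) :
    ∃ (π : Var ℂ ⥤ Grpd.{0, 0}) (τ : π ⟶ pi1top), IsCounterexample π τ := by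
  obtain ⟨R', α, hα⟩ := exists_eq pi1top (R pi1top OverQbar) OverQbar (prj pi1top OverQbar)
    (fun V hV => isIso_prj hV)
  refine ⟨R', α.hom ≫ prj pi1top OverQbar, (R_pi1Like hF.like (base hF)).of_iso α, ?_, hα, ?_⟩
  · intro X
    have h1 : Function.Bijective (α.hom.app X : R'.obj X ⥤ (R pi1top OverQbar).obj X).obj :=
      obj_bij _ (α.inv.app X : (R pi1top OverQbar).obj X ⥤ R'.obj X) (α.hom_inv_id_app X)
        (α.inv_hom_id_app X)
    have h2 : Function.Bijective (proj (loops pi1top OverQbar X)).obj :=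
      ⟨fun a b h => by cases a; cases b; exact congrArg Ext.mk h, fun x => ⟨⟨x⟩, rfl⟩⟩
    exact h2.comp h1
  · intro σ
    refine ⟨fun Φ' => ?_⟩
    let Φ : conj σ ⋙ R pi1top OverQbar ≅ pi1top :=
      (Functor.isoWhiskerLeft (conj σ) α).symm ≪≫ Φ'
    obtain ⟨p⟩ := hE.pt
    let x : pi1top.obj E := ⟨p⟩
    obtain ⟨g, hg1, hg2⟩ := divisible (Q := OverQbar) x (exists_M hE x)
    have hs : specAut σ.symm ≫ specAut σ = 𝟙 _ := by
      delta specAut
      rw [← Spec.map_comp, ← CommRingCat.ofHom_comp]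
      have : ((σ.symm : ℂ →+* ℂ)).comp (σ : ℂ →+* ℂ) = RingHom.id ℂ :=
        RingHom.ext fun z => σ.symm_apply_apply z
      rw [this]
      exact Spec.map_id _
    let i : E ≅ (conj σ).obj ((conj σ.symm).obj E) := by
      refine ObjectProperty.isoMk _ (Over.isoMk (Iso.refl _) ?_)
      show 𝟙 _ ≫ (E.obj.hom ≫ specAut σ.symm) ≫ specAut σ = E.obj.hom
      rw [Category.id_comp, Category.assoc, hs]
      exact Category.comp_id _
    let Ψ : (R pi1top OverQbar).obj E ≅ pi1top.obj ((conj σ.symm).obj E) :=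
      (R pi1top OverQbar).mapIso i ≪≫ Φ.app ((conj σ.symm).obj E)
    let F : Ext (loops pi1top OverQbar E) ⥤ pi1top.obj ((conj σ.symm).obj E) := Ψ.hom
    let G : pi1top.obj ((conj σ.symm).obj E) ⥤ Ext (loops pi1top OverQbar E) := Ψ.inv
    have hFG : F ⋙ G = 𝟭 _ := Ψ.hom_inv_id
    obtain ⟨e⟩ := hE.grpConj σ.symm (F.obj ⟨x⟩)
    have h1 : e (F.map g) = 1 := by
      apply no_divisible
      intro n hn
      obtain ⟨r, hr⟩ := hg2 n hn
      refine ⟨e (F.map r), ?_⟩
      rw [← map_pow, ← map_pow', hr]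
    have h2 : F.map g = 𝟙 _ := e.injective (h1.trans (map_one e).symm)
    exact hg1 (eq_id_of_map F G hFG g h2)

end Pool.Agent.Results.MP_8178ab_ag.QbarLoops
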